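import Mathlib

set_option autoImplicit false
open Metric Filter Topology Set

namespace Pool.Agent.Sx28.Egg

abbrev Cn (n : ℕ) := EuclideanSpace ℂ (Fin n)

variable {m : ℕ}

/-- vector with given coordinates -/
noncomputable def mk (a b : ℂ) (u : Fin m → ℂ) : Cn (m + 2) :=
  WithLp.toLp 2 (Fin.cons a (Fin.cons b u))

/-- the remaining part of the norm squared -/
noncomputable def R (z : Cn (m + 2)) : ℝ := ∑ i : Fin m, ‖z i.succ.succ‖ ^ 2

theorem R_nonneg (z : Cn (m + 2)) : 0 ≤ R z := Finset.sum_nonneg (fun _ _ => by positivity)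

@[simp] theorem mk_zero (a b : ℂ) (u : Fin m → ℂ) : mk a b u 0 = a := rfl
@[simp] theorem mk_one (a b : ℂ) (u : Fin m → ℂ) : mk a b u 1 = b := rfl
@[simp] theorem mk_succ (a b : ℂ) (u : Fin m → ℂ) (i : Fin m) : mk a b u i.succ.succ = u i := rfl

theorem ext_mk {x y : Cn (m + 2)} (h0 : x 0 = y 0) (h1 : x 1 = y 1)
    (h2 : ∀ i : Fin m, x i.succ.succ = y i.succ.succ) : x = y := by
  ext i
  refine Fin.cases h0 (fun i => ?_) i
  exact Fin.cases h1 (fun i => h2 i) i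

theorem norm_sq_eq (z : Cn (m + 2)) : ‖z‖ ^ 2 = ‖z 0‖ ^ 2 + (‖z 1‖ ^ 2 + R z) := by
  rw [EuclideanSpace.norm_sq_eq, Fin.sum_univ_succ, Fin.sum_univ_succ]
  rfl

theorem R_mk_smul (a b c : ℂ) (z : Cn (m + 2)) :
    R (mk a b (fun i => c * z i.succ.succ)) = ‖c‖ ^ 2 * R z := by
  unfold R
  simp only [mk_succ, norm_mul, mul_pow]
  rw [Finset.mul_sum]

/-- defining function of the egg, plus one -/
noncomputable def g (z : Cn (m + 2)) : ℝ := ‖z 1‖ ^ 2 + R z + (‖z 0‖ ^ 2) ^ 2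

/-- the egg -/
def E (m : ℕ) : Set (Cn (m + 2)) := {z | g z < 1}

/-- `u ↦ u^{-1/2}` -/
noncomputable def sq (u : ℂ) : ℂ := Complex.exp (-(Complex.log u) / 2)

theorem sq_sq {u : ℂ} (hu : u ≠ 0) : sq u ^ 2 = u⁻¹ := by
  unfold sq
  rw [← Complex.exp_nat_mul]
  have : ((2 : ℕ) : ℂ) * (-(Complex.log u) / 2) = -(Complex.log u) := by push_cast; ring
  rw [this, Complex.exp_neg, Complex.exp_log hu]

theorem norm_sq_sq {u : ℂ} (hu : u ≠ 0) : (‖sq u‖ ^ 2) ^ 2 = (‖u‖ ^ 2)⁻¹ := by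
  rw [← norm_pow, sq_sq hu, norm_inv, inv_pow]

theorem sq_mul {u : ℂ} (hu : 0 < u.re) {r : ℝ} (hr : 0 < r) :
    sq u * sq (r / u) = ((Real.sqrt r)⁻¹ : ℝ) := by
  have hu0 : u ≠ 0 := by rintro rfl; simp at hu
  have harg : u.arg ≠ Real.pi := by
    have := (Complex.abs_arg_lt_pi_div_two_iff).2 (Or.inl hu)
    have h2 := (abs_lt.1 this).2
    have := Real.pi_pos
    linarith
  unfold sq
  have e1 : Complex.log (r / u) = (Real.log r : ℂ) - Complex.log u := by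
    rw [div_eq_mul_inv, Complex.log_ofReal_mul hr (inv_ne_zero hu0), Complex.log_inv _ harg]
    rw [Complex.ofReal_log hr.le]; ring
  rw [e1, ← Complex.exp_add]
  have e2 : -Complex.log u / 2 + -((Real.log r : ℂ) - Complex.log u) / 2 =
      ((-(Real.log r) / 2 : ℝ) : ℂ) := by push_cast; ring
  rw [e2, ← Complex.ofReal_exp]
  congr 1
  rw [neg_div, Real.exp_neg, ← Real.log_sqrt hr.le, Real.exp_log (Real.sqrt_pos.2 hr)]

theorem sq_differentiableAt {u : ℂ} (hu : 0 < u.re) : DifferentiableAt ℂ sq u := by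
  unfold sq
  have : u ∈ Complex.slitPlane := Or.inl hu
  have h1 := (Complex.differentiableAt_log this)
  exact ((h1.neg).div_const 2).cexp

/-- egg automorphism -/
noncomputable def Phi (a : ℝ) (z : Cn (m + 2)) : Cn (m + 2) :=
  mk (Real.sqrt (Real.sqrt (1 - a ^ 2)) * (z 0 * sq (1 + a * z 1)))
    ((z 1 + a) / (1 + a * z 1))
    (fun i => (Real.sqrt (1 - a ^ 2) / (1 + a * z 1)) * z i.succ.succ)

theorem lt_one_of_mem {z : Cn (m + 2)} (hz : z ∈ E m) : ‖z 1‖ < 1 := by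
  have h : g z < 1 := hz
  unfold g at h
  have := R_nonneg z
  have h1 : ‖z 1‖ ^ 2 < 1 := by nlinarith [sq_nonneg (‖z 0‖ ^ 2)]
  have := (sq_lt_one_iff₀ (norm_nonneg (z 1))).1 h1
  exact this

theorem zero_lt_one_of_mem {z : Cn (m + 2)} (hz : z ∈ E m) : ‖z 0‖ < 1 := by
  have h : g z < 1 := hz
  unfold g at h
  have := R_nonneg z
  have h1 : (‖z 0‖ ^ 2) ^ 2 < 1 := by nlinarith [sq_nonneg (‖z 1‖)]
  have h2 := (sq_lt_one_iff₀ (sq_nonneg ‖z 0‖)).1 h1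
  exact (sq_lt_one_iff₀ (norm_nonneg (z 0))).1 h2

theorem re_pos {a : ℝ} (ha : |a| < 1) {z : Cn (m + 2)} (hz : z ∈ E m) :
    0 < (1 + a * z 1 : ℂ).re := by
  have h1 := lt_one_of_mem hz
  have h2 : |a * (z 1).re| < 1 := by
    rw [abs_mul]
    have h3 := Complex.abs_re_le_norm (z 1)
    calc |a| * |(z 1).re| ≤ |a| * ‖z 1‖ := by gcongr
      _ ≤ 1 * ‖z 1‖ := by gcongr
      _ < 1 := by linarith
  have h4 := (abs_lt.1 h2).1
  simp
  linarith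

theorem mobius_id (a : ℝ) (u : ℂ) :
    ‖1 + a * u‖ ^ 2 - ‖u + a‖ ^ 2 = (1 - a ^ 2) * (1 - ‖u‖ ^ 2) := by
  rw [Complex.sq_norm, Complex.sq_norm, Complex.sq_norm, Complex.normSq_apply,
    Complex.normSq_apply, Complex.normSq_apply]
  simp
  ring

theorem one_sub_g_Phi {a : ℝ} (ha : |a| < 1) {z : Cn (m + 2)} (hz : z ∈ E m) :
    ‖(1 + a * z 1 : ℂ)‖ ^ 2 * (1 - g (Phi a z)) = (1 - a ^ 2) * (1 - g z) := by
  have hre := re_pos ha hz
  have hu0 : (1 + a * z 1 : ℂ) ≠ 0 := by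
    intro h; rw [h] at hre; simp at hre
  have hn : 0 < ‖(1 + a * z 1 : ℂ)‖ := norm_pos_iff.2 hu0
  have ha2 : 0 ≤ 1 - a ^ 2 := by
    have := (sq_lt_one_iff_abs_lt_one a).2 ha
    linarith
  have hs : Real.sqrt (1 - a ^ 2) ^ 2 = 1 - a ^ 2 := Real.sq_sqrt ha2
  have hc : Real.sqrt (Real.sqrt (1 - a ^ 2)) ^ 2 = Real.sqrt (1 - a ^ 2) :=
    Real.sq_sqrt (Real.sqrt_nonneg _)
  have e0 : (‖(Phi a z) 0‖ ^ 2) ^ 2 = (1 - a ^ 2) * (‖z 0‖ ^ 2) ^ 2 * (‖(1 + a * z 1 : ℂ)‖ ^ 2)⁻¹ := by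
    unfold Phi
    rw [mk_zero, norm_mul, norm_mul, Complex.norm_real, Real.norm_eq_abs,
      abs_of_nonneg (Real.sqrt_nonneg _), mul_pow, mul_pow, mul_pow, mul_pow, norm_sq_sq hu0, hc, hs]
    ring
  have e1 : ‖(Phi a z) 1‖ ^ 2 = ‖z 1 + a‖ ^ 2 * (‖(1 + a * z 1 : ℂ)‖ ^ 2)⁻¹ := by
    unfold Phi
    rw [mk_one, norm_div, div_pow]; ring
  have e2 : R (Phi a z) = (1 - a ^ 2) * R z * (‖(1 + a * z 1 : ℂ)‖ ^ 2)⁻¹ := by
    unfold Phi
    rw [R_mk_smul, norm_div, Complex.norm_real, Real.norm_eq_abs,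
      abs_of_nonneg (Real.sqrt_nonneg _), div_pow, hs]
    ring
  have e3 := mobius_id a (z 1)
  unfold g
  rw [e0, e1, e2]
  have hn2 : ‖(1 + a * z 1 : ℂ)‖ ^ 2 ≠ 0 := by positivity
  field_simp
  linarith

theorem Phi_mem {a : ℝ} (ha : |a| < 1) {z : Cn (m + 2)} (hz : z ∈ E m) : Phi a z ∈ E m := by
  have h := one_sub_g_Phi ha hz
  have hre := re_pos ha hz
  have hu0 : (1 + a * z 1 : ℂ) ≠ 0 := by
    intro h; rw [h] at hre; simp at hre
  have hn : 0 < ‖(1 + a * z 1 : ℂ)‖ ^ 2 := by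
    have := norm_pos_iff.2 hu0
    positivity
  have ha2 : 0 < 1 - a ^ 2 := by
    have := (sq_lt_one_iff_abs_lt_one a).2 ha
    linarith
  have hz' : 0 < 1 - g z := sub_pos.2 hz
  have : 0 < ‖(1 + a * z 1 : ℂ)‖ ^ 2 * (1 - g (Phi a z)) := by rw [h]; positivity
  have h2 : 0 < 1 - g (Phi a z) := (pos_iff_pos_of_mul_pos this).1 hn
  exact sub_pos.1 h2

theorem aux1 {a w : ℂ} (h : 1 + a * w ≠ 0) :
    1 + (-a) * ((w + a) / (1 + a * w)) = (1 - a ^ 2) / (1 + a * w) := by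
  field_simp
  ring

theorem aux2 {a w : ℂ} (h : 1 + a * w ≠ 0) (h2 : 1 - a ^ 2 ≠ 0) :
    ((w + a) / (1 + a * w) + -a) / ((1 - a ^ 2) / (1 + a * w)) = w := by
  have e : (w + a) / (1 + a * w) + -a = w * ((1 - a ^ 2) / (1 + a * w)) := by
    rw [div_add' _ _ _ h, mul_div_assoc']
    congr 1
    ring
  rw [e, mul_div_assoc, div_self (div_ne_zero h2 h), mul_one]

theorem Phi_inv {a : ℝ} (ha : |a| < 1) {z : Cn (m + 2)} (hz : z ∈ E m) : Phi (-a) (Phi a z) = z := by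
  have hre := re_pos ha hz
  have hu0 : (1 + a * z 1 : ℂ) ≠ 0 := by
    intro h; rw [h] at hre; simp at hre
  have ha2 : 0 < 1 - a ^ 2 := by
    have := (sq_lt_one_iff_abs_lt_one a).2 ha
    linarith
  have ha2' : ((1 - a ^ 2 : ℝ) : ℂ) ≠ 0 := by exact_mod_cast ha2.ne'
  have hs : Real.sqrt (1 - a ^ 2) ^ 2 = 1 - a ^ 2 := Real.sq_sqrt ha2.le
  have hc : Real.sqrt (Real.sqrt (1 - a ^ 2)) ^ 2 = Real.sqrt (1 - a ^ 2) :=
    Real.sq_sqrt (Real.sqrt_nonneg _)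
  have hs' : (Real.sqrt (1 - a ^ 2) : ℂ) ^ 2 = ((1 - a ^ 2 : ℝ) : ℂ) := by exact_mod_cast hs
  have hc' : (Real.sqrt (Real.sqrt (1 - a ^ 2)) : ℂ) ^ 2 = (Real.sqrt (1 - a ^ 2) : ℂ) := by
    exact_mod_cast hc
  have e1 : (Phi a z) 1 = (z 1 + a) / (1 + a * z 1) := rfl
  have e2 : (1 + ((-a : ℝ) : ℂ) * (Phi a z) 1) = ((1 - a ^ 2 : ℝ) : ℂ) / (1 + a * z 1) := by
    rw [e1]; push_cast; exact aux1 hu0
  have hspos : 0 < Real.sqrt (1 - a ^ 2) := Real.sqrt_pos.2 ha2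
  have hs0 : (Real.sqrt (1 - a ^ 2) : ℂ) ≠ 0 := by exact_mod_cast hspos.ne'
  apply ext_mk
  · show _ * ((Phi a z) 0 * sq (1 + ((-a : ℝ) : ℂ) * (Phi a z) 1)) = z 0
    rw [e2]
    have e0 : (Phi a z) 0 = Real.sqrt (Real.sqrt (1 - a ^ 2)) * (z 0 * sq (1 + a * z 1)) := rfl
    rw [e0, neg_sq]
    have e3 := sq_mul hre ha2
    calc (Real.sqrt (Real.sqrt (1 - a ^ 2)) : ℂ) * (Real.sqrt (Real.sqrt (1 - a ^ 2)) *
          (z 0 * sq (1 + a * z 1)) * sq (((1 - a ^ 2 : ℝ) : ℂ) / (1 + a * z 1)))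
        = (Real.sqrt (Real.sqrt (1 - a ^ 2)) : ℂ) ^ 2 * z 0 *
          (sq (1 + a * z 1) * sq (((1 - a ^ 2 : ℝ) : ℂ) / (1 + a * z 1))) := by ring
      _ = z 0 := by
        rw [e3, hc']
        push_cast
        field_simp
  · show ((Phi a z) 1 + ((-a : ℝ) : ℂ)) / (1 + ((-a : ℝ) : ℂ) * (Phi a z) 1) = z 1
    rw [e2, e1]
    push_cast at ha2' ⊢
    exact aux2 hu0 ha2'
  · intro i
    show ((Real.sqrt (1 - (-a) ^ 2) : ℂ) / (1 + ((-a : ℝ) : ℂ) * (Phi a z) 1)) *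
      (Phi a z) i.succ.succ = z i.succ.succ
    rw [e2, neg_sq]
    have e3 : (Phi a z) i.succ.succ = (Real.sqrt (1 - a ^ 2) / (1 + a * z 1)) * z i.succ.succ := rfl
    rw [e3]
    calc (Real.sqrt (1 - a ^ 2) : ℂ) / (((1 - a ^ 2 : ℝ) : ℂ) / (1 + a * z 1)) *
          (Real.sqrt (1 - a ^ 2) / (1 + a * z 1) * z i.succ.succ)
        = (Real.sqrt (1 - a ^ 2) : ℂ) ^ 2 / ((1 - a ^ 2 : ℝ) : ℂ) * z i.succ.succ := by
          field_simp
      _ = z i.succ.succ := by rw [hs', div_self ha2', one_mul]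

theorem dv {V : Type*} [NormedAddCommGroup V] [NormedSpace ℂ V] {f h : V → ℂ} {z : V}
    (hf : DifferentiableAt ℂ f z) (hh : DifferentiableAt ℂ h z) (h0 : h z ≠ 0) :
    DifferentiableAt ℂ (fun x => f x / h x) z := by
  simp only [div_eq_mul_inv]
  exact hf.fun_mul (hh.fun_inv h0)

theorem coord_differentiable (i : Fin (m + 2)) : Differentiable ℂ (fun z : Cn (m + 2) => z i) := by
  fun_prop

theorem Phi_differentiableAt {a : ℝ} (ha : |a| < 1) {z : Cn (m + 2)} (hz : z ∈ E m) :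
    DifferentiableAt ℂ (Phi a) z := by
  have hre := re_pos ha hz
  have hu0 : (1 + a * z 1 : ℂ) ≠ 0 := by
    intro h; rw [h] at hre; simp at hre
  have hu : DifferentiableAt ℂ (fun z : Cn (m + 2) => (1 + a * z 1 : ℂ)) z := by fun_prop
  rw [differentiableAt_euclidean]
  intro i
  refine Fin.cases ?_ (fun i => ?_) i
  · show DifferentiableAt ℂ (fun z : Cn (m + 2) => (Real.sqrt (Real.sqrt (1 - a ^ 2)) : ℂ) *
      (z 0 * sq (1 + a * z 1))) z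
    have h2 : DifferentiableAt ℂ (sq ∘ (fun z : Cn (m + 2) => (1 + a * z 1 : ℂ))) z :=
      DifferentiableAt.comp z (sq_differentiableAt hre) hu
    exact (((coord_differentiable 0).differentiableAt).mul h2).const_mul _
  refine Fin.cases ?_ (fun i => ?_) i
  · show DifferentiableAt ℂ (fun z : Cn (m + 2) => (z 1 + a) / (1 + a * z 1)) z
    have h3 : DifferentiableAt ℂ (fun z : Cn (m + 2) => (z 1 + a : ℂ)) z := by fun_prop
    exact dv h3 hu hu0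
  · show DifferentiableAt ℂ (fun z : Cn (m + 2) => ((Real.sqrt (1 - a ^ 2) : ℂ) / (1 + a * z 1)) *
      z i.succ.succ) z
    have h3 : DifferentiableAt ℂ (fun _ : Cn (m + 2) => (Real.sqrt (1 - a ^ 2) : ℂ)) z := by
      fun_prop
    exact (dv h3 hu hu0).fun_mul (coord_differentiable _).differentiableAt

end Pool.Agent.Sx28.Egg
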