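import Mathlib
import Pool.Agent.Sx28.Egg.Maps

set_option autoImplicit false
open Metric Filter Topology Set

namespace Pool.Agent.Sx28.Egg

variable {m : ℕ}

/-- `κ_t = sqrt((1-t²)/2)` -/
noncomputable def kap (t : ℝ) : ℝ := Real.sqrt ((1 - t ^ 2) / 2)

/-- map of the egg into the ball taking `t e_0` to `0` -/
noncomputable def M (t : ℝ) (z : Cn (m + 2)) : Cn (m + 2) :=
  mk ((z 0 - t) / (1 - t * z 0)) ((kap t / (1 - t * z 0)) * z 1)
    (fun i => (kap t / (1 - t * z 0)) * z i.succ.succ)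

/-- its inverse -/
noncomputable def N (t : ℝ) (y : Cn (m + 2)) : Cn (m + 2) :=
  mk ((y 0 + t) / (1 + t * y 0)) ((2 * kap t / (1 + t * y 0)) * y 1)
    (fun i => (2 * kap t / (1 + t * y 0)) * y i.succ.succ)

theorem ne1 {t : ℝ} (ht0 : 0 ≤ t) (ht : t < 1) {u : ℂ} (hu : ‖u‖ < 1) : (1 + t * u : ℂ) ≠ 0 := by
  intro h
  have h1 : (t * u : ℂ) = -1 := by linear_combination h
  have h2 : ‖(t * u : ℂ)‖ = 1 := by rw [h1]; simp
  rw [norm_mul, Complex.norm_real, Real.norm_eq_abs, abs_of_nonneg ht0] at h2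
  have : t * ‖u‖ ≤ 1 * ‖u‖ := by gcongr
  linarith

theorem ne2 {t : ℝ} (ht0 : 0 ≤ t) (ht : t < 1) {u : ℂ} (hu : ‖u‖ < 1) : (1 - t * u : ℂ) ≠ 0 := by
  have := ne1 ht0 ht (u := -u) (by rwa [norm_neg])
  intro h; apply this; rw [← h]; ring

theorem mobius_id2 (t : ℝ) (u : ℂ) :
    ‖1 - t * u‖ ^ 2 - ‖u - t‖ ^ 2 = (1 - t ^ 2) * (1 - ‖u‖ ^ 2) := by
  rw [Complex.sq_norm, Complex.sq_norm, Complex.sq_norm, Complex.normSq_apply,
    Complex.normSq_apply, Complex.normSq_apply]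
  simp
  ring

theorem kap_sq {t : ℝ} (ht0 : 0 ≤ t) (ht : t < 1) : kap t ^ 2 = (1 - t ^ 2) / 2 := by
  unfold kap
  rw [Real.sq_sqrt]
  nlinarith

theorem M_mem {t : ℝ} (ht0 : 0 ≤ t) (ht : t < 1) {z : Cn (m + 2)} (hz : z ∈ E m) :
    ‖M t z‖ < 1 := by
  have h0 := zero_lt_one_of_mem hz
  have hne := ne2 ht0 ht h0
  have hn : 0 < ‖(1 - t * z 0 : ℂ)‖ ^ 2 := by
    have := norm_pos_iff.2 hne
    positivity
  have hk := kap_sq ht0 ht
  have e0 : ‖(M t z) 0‖ ^ 2 = ‖z 0 - t‖ ^ 2 / ‖(1 - t * z 0 : ℂ)‖ ^ 2 := by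
    unfold M; rw [mk_zero, norm_div, div_pow]
  have e1 : ‖(M t z) 1‖ ^ 2 = (1 - t ^ 2) / 2 * ‖z 1‖ ^ 2 / ‖(1 - t * z 0 : ℂ)‖ ^ 2 := by
    unfold M
    rw [mk_one, norm_mul, norm_div, Complex.norm_real, Real.norm_eq_abs, mul_pow, div_pow, sq_abs,
      hk]
    ring
  have e2 : R (M t z) = (1 - t ^ 2) / 2 * R z / ‖(1 - t * z 0 : ℂ)‖ ^ 2 := by
    unfold M
    rw [R_mk_smul, norm_div, Complex.norm_real, Real.norm_eq_abs, div_pow, sq_abs, hk]
    ring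
  have h1 : ‖M t z‖ ^ 2 < 1 := by
    rw [norm_sq_eq, e0, e1, e2, ← add_div, ← add_div, div_lt_one hn]
    have h3 := mobius_id2 t (z 0)
    have h4 : g z < 1 := hz
    unfold g at h4
    have h5 : 0 < 1 - t ^ 2 := by nlinarith
    nlinarith [sq_nonneg (1 - ‖z 0‖ ^ 2)]
  exact (sq_lt_one_iff₀ (norm_nonneg _)).1 h1

theorem aux3 {t w : ℂ} (h : 1 + t * w ≠ 0) :
    1 - t * ((w + t) / (1 + t * w)) = (1 - t ^ 2) / (1 + t * w) := by
  field_simp
  ring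

theorem aux4 {t w : ℂ} (h : 1 + t * w ≠ 0) (h2 : 1 - t ^ 2 ≠ 0) :
    ((w + t) / (1 + t * w) - t) / ((1 - t ^ 2) / (1 + t * w)) = w := by
  have e : (w + t) / (1 + t * w) - t = w * ((1 - t ^ 2) / (1 + t * w)) := by
    rw [div_sub' h, mul_div_assoc']
    congr 1
    ring
  rw [e, mul_div_assoc, div_self (div_ne_zero h2 h), mul_one]

theorem aux5 {t w : ℂ} (h : 1 - t * w ≠ 0) :
    1 + t * ((w - t) / (1 - t * w)) = (1 - t ^ 2) / (1 - t * w) := by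
  field_simp
  ring

theorem aux6 {t w : ℂ} (h : 1 - t * w ≠ 0) (h2 : 1 - t ^ 2 ≠ 0) :
    ((w - t) / (1 - t * w) + t) / ((1 - t ^ 2) / (1 - t * w)) = w := by
  have e : (w - t) / (1 - t * w) + t = w * ((1 - t ^ 2) / (1 - t * w)) := by
    rw [div_add' _ _ _ h, mul_div_assoc']
    congr 1
    ring
  rw [e, mul_div_assoc, div_self (div_ne_zero h2 h), mul_one]

theorem M_N {t : ℝ} (ht0 : 0 ≤ t) (ht : t < 1) {y : Cn (m + 2)} (hy : ‖y 0‖ < 1) :
    M t (N t y) = y := by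
  have hne := ne1 ht0 ht hy
  have hk := kap_sq ht0 ht
  have ht2 : 0 < 1 - t ^ 2 := by nlinarith
  have ht2' : (1 - (t : ℂ) ^ 2) ≠ 0 := by exact_mod_cast ht2.ne'
  have hk' : (kap t : ℂ) ^ 2 = (1 - (t : ℂ) ^ 2) / 2 := by exact_mod_cast hk
  have e1 : (N t y) 0 = (y 0 + t) / (1 + t * y 0) := rfl
  have e2 : (1 - t * (N t y) 0 : ℂ) = (1 - (t : ℂ) ^ 2) / (1 + t * y 0) := by
    rw [e1]; exact aux3 hne
  have key : ∀ x : ℂ, (kap t / ((1 - (t : ℂ) ^ 2) / (1 + t * y 0))) *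
      ((2 * kap t / (1 + t * y 0)) * x) = x := by
    intro x
    have : (kap t / ((1 - (t : ℂ) ^ 2) / (1 + t * y 0))) * ((2 * kap t / (1 + t * y 0)) * x)
        = (2 * (kap t : ℂ) ^ 2 / (1 - (t : ℂ) ^ 2)) * x := by
      field_simp
    rw [this, hk']
    field_simp
  apply ext_mk
  · show ((N t y) 0 - t) / (1 - t * (N t y) 0) = y 0
    rw [e2, e1]; exact aux4 hne ht2'
  · show (kap t / (1 - t * (N t y) 0)) * ((2 * kap t / (1 + t * y 0)) * y 1) = y 1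
    rw [e2]; exact key _
  · intro i
    show (kap t / (1 - t * (N t y) 0)) * ((2 * kap t / (1 + t * y 0)) * y i.succ.succ) =
      y i.succ.succ
    rw [e2]; exact key _

theorem N_M {t : ℝ} (ht0 : 0 ≤ t) (ht : t < 1) {z : Cn (m + 2)} (hz : ‖z 0‖ < 1) :
    N t (M t z) = z := by
  have hne := ne2 ht0 ht hz
  have hk := kap_sq ht0 ht
  have ht2 : 0 < 1 - t ^ 2 := by nlinarith
  have ht2' : (1 - (t : ℂ) ^ 2) ≠ 0 := by exact_mod_cast ht2.ne'
  have hk' : (kap t : ℂ) ^ 2 = (1 - (t : ℂ) ^ 2) / 2 := by exact_mod_cast hk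
  have e1 : (M t z) 0 = (z 0 - t) / (1 - t * z 0) := rfl
  have e2 : (1 + t * (M t z) 0 : ℂ) = (1 - (t : ℂ) ^ 2) / (1 - t * z 0) := by
    rw [e1]; exact aux5 hne
  have key : ∀ x : ℂ, (2 * kap t / ((1 - (t : ℂ) ^ 2) / (1 - t * z 0))) *
      ((kap t / (1 - t * z 0)) * x) = x := by
    intro x
    have : (2 * kap t / ((1 - (t : ℂ) ^ 2) / (1 - t * z 0))) * ((kap t / (1 - t * z 0)) * x)
        = (2 * (kap t : ℂ) ^ 2 / (1 - (t : ℂ) ^ 2)) * x := by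
      field_simp
    rw [this, hk']
    field_simp
  apply ext_mk
  · show ((M t z) 0 + t) / (1 + t * (M t z) 0) = z 0
    rw [e2, e1]; exact aux6 hne ht2'
  · show (2 * kap t / (1 + t * (M t z) 0)) * ((kap t / (1 - t * z 0)) * z 1) = z 1
    rw [e2]; exact key _
  · intro i
    show (2 * kap t / (1 + t * (M t z) 0)) * ((kap t / (1 - t * z 0)) * z i.succ.succ) =
      z i.succ.succ
    rw [e2]; exact key _

theorem N_mem {t : ℝ} (ht0 : 0 ≤ t) (ht : t < 1) {y : Cn (m + 2)}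
    (hy : ‖y‖ ^ 2 < 2 * t ^ 2 - 1) : N t y ∈ E m := by
  have hy1 : ‖y‖ ^ 2 < 1 := by nlinarith
  rw [norm_sq_eq] at hy hy1
  have hR := R_nonneg y
  have h0 : ‖y 0‖ < 1 := by
    apply (sq_lt_one_iff₀ (norm_nonneg _)).1
    nlinarith [sq_nonneg ‖y 1‖]
  have hne := ne1 ht0 ht h0
  set A : ℝ := ‖(1 + t * y 0 : ℂ)‖ ^ 2 with hA
  have hApos : 0 < A := by
    have := norm_pos_iff.2 hne
    positivity
  have hk := kap_sq ht0 ht
  have ht2 : 0 < 1 - t ^ 2 := by nlinarith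
  have e0 : ‖(N t y) 0‖ ^ 2 = ‖y 0 + t‖ ^ 2 / A := by
    unfold N; rw [mk_zero, norm_div, div_pow]
  have e1 : ‖(N t y) 1‖ ^ 2 = 2 * (1 - t ^ 2) * ‖y 1‖ ^ 2 / A := by
    unfold N
    rw [mk_one, norm_mul, norm_div, norm_mul, Complex.norm_real, Real.norm_eq_abs, mul_pow,
      div_pow, mul_pow, sq_abs, hk, Complex.norm_two]
    ring
  have e2 : R (N t y) = 2 * (1 - t ^ 2) * R y / A := by
    unfold N
    rw [R_mk_smul, norm_div, norm_mul, Complex.norm_real, Real.norm_eq_abs, div_pow, mul_pow,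
      sq_abs, hk, Complex.norm_two]
    ring
  have h3 := mobius_id t (y 0)
  rw [← hA] at h3
  -- the bound `(1-|y0|²)² ≤ 4 A`
  have h4 : (1 - ‖y 0‖ ^ 2) ^ 2 ≤ 4 * A := by
    have h5 : 1 - ‖y 0‖ ≤ ‖(1 + t * y 0 : ℂ)‖ := by
      have h6 : ‖(1 : ℂ)‖ - ‖(t * y 0 : ℂ)‖ ≤ ‖(1 + t * y 0 : ℂ)‖ := by
        have := norm_sub_norm_le (1 : ℂ) (-(t * y 0 : ℂ))
        rwa [norm_neg, sub_neg_eq_add] at this
      rw [norm_one, norm_mul, Complex.norm_real, Real.norm_eq_abs, abs_of_nonneg ht0] at h6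
      have : t * ‖y 0‖ ≤ 1 * ‖y 0‖ := by gcongr
      linarith
    have h7 : 1 - ‖y 0‖ ^ 2 ≤ 2 * ‖(1 + t * y 0 : ℂ)‖ := by
      nlinarith [norm_nonneg (y 0)]
    have h8 : 0 ≤ 1 - ‖y 0‖ ^ 2 := by nlinarith [norm_nonneg (y 0)]
    calc (1 - ‖y 0‖ ^ 2) ^ 2 ≤ (2 * ‖(1 + t * y 0 : ℂ)‖) ^ 2 := by gcongr
      _ = 4 * A := by rw [hA]; ring
  show g (N t y) < 1
  unfold g
  rw [e0, e1, e2]
  -- X = 1 - |z0|²
  have e3 : ‖y 0 + t‖ ^ 2 / A = 1 - (1 - t ^ 2) * (1 - ‖y 0‖ ^ 2) / A := by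
    field_simp; linarith
  rw [e3]
  set B : ℝ := (1 - t ^ 2) / A with hB
  have hBpos : 0 < B := by positivity
  have e4 : 2 * (1 - t ^ 2) * ‖y 1‖ ^ 2 / A = 2 * B * ‖y 1‖ ^ 2 := by rw [hB]; ring
  have e5 : 2 * (1 - t ^ 2) * R y / A = 2 * B * R y := by rw [hB]; ring
  have e6 : (1 - t ^ 2) * (1 - ‖y 0‖ ^ 2) / A = B * (1 - ‖y 0‖ ^ 2) := by rw [hB]; ring
  rw [e4, e5, e6]
  have e7 : B * A = 1 - t ^ 2 := by rw [hB]; field_simp
  have h9 : B * (1 - ‖y 0‖ ^ 2) ^ 2 ≤ 4 * (1 - t ^ 2) := by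
    calc B * (1 - ‖y 0‖ ^ 2) ^ 2 ≤ B * (4 * A) := by gcongr
      _ = 4 * (1 - t ^ 2) := by rw [← e7]; ring
  have h10 : B * (B * (1 - ‖y 0‖ ^ 2) ^ 2) ≤ B * (4 * (1 - t ^ 2)) := by gcongr
  have h11 : 2 * B * (‖y 1‖ ^ 2 + R y) < 2 * B * (2 * t ^ 2 - 1 - ‖y 0‖ ^ 2) := by
    apply mul_lt_mul_of_pos_left _ (by positivity)
    linarith
  nlinarith

theorem M_differentiableAt {t : ℝ} (ht0 : 0 ≤ t) (ht : t < 1) {z : Cn (m + 2)} (hz : ‖z 0‖ < 1) :
    DifferentiableAt ℂ (M t) z := by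
  have hu0 := ne2 ht0 ht hz
  have hu : DifferentiableAt ℂ (fun z : Cn (m + 2) => (1 - t * z 0 : ℂ)) z := by fun_prop
  rw [differentiableAt_euclidean]
  intro i
  have h3 : DifferentiableAt ℂ (fun _ : Cn (m + 2) => (kap t : ℂ)) z := by fun_prop
  refine Fin.cases ?_ (fun i => ?_) i
  · show DifferentiableAt ℂ (fun z : Cn (m + 2) => (z 0 - t) / (1 - t * z 0)) z
    have h3 : DifferentiableAt ℂ (fun z : Cn (m + 2) => (z 0 - t : ℂ)) z := by fun_prop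
    exact dv h3 hu hu0
  refine Fin.cases ?_ (fun i => ?_) i
  · show DifferentiableAt ℂ (fun z : Cn (m + 2) => ((kap t : ℂ) / (1 - t * z 0)) * z 1) z
    exact (dv h3 hu hu0).fun_mul (coord_differentiable _).differentiableAt
  · show DifferentiableAt ℂ (fun z : Cn (m + 2) => ((kap t : ℂ) / (1 - t * z 0)) * z i.succ.succ) z
    exact (dv h3 hu hu0).fun_mul (coord_differentiable _).differentiableAt

theorem N_differentiableAt {t : ℝ} (ht0 : 0 ≤ t) (ht : t < 1) {z : Cn (m + 2)} (hz : ‖z 0‖ < 1) :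
    DifferentiableAt ℂ (N t) z := by
  have hu0 := ne1 ht0 ht hz
  have hu : DifferentiableAt ℂ (fun z : Cn (m + 2) => (1 + t * z 0 : ℂ)) z := by fun_prop
  rw [differentiableAt_euclidean]
  intro i
  have h3 : DifferentiableAt ℂ (fun _ : Cn (m + 2) => (2 * kap t : ℂ)) z := by fun_prop
  refine Fin.cases ?_ (fun i => ?_) i
  · show DifferentiableAt ℂ (fun z : Cn (m + 2) => (z 0 + t) / (1 + t * z 0)) z
    have h3 : DifferentiableAt ℂ (fun z : Cn (m + 2) => (z 0 + t : ℂ)) z := by fun_prop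
    exact dv h3 hu hu0
  refine Fin.cases ?_ (fun i => ?_) i
  · show DifferentiableAt ℂ (fun z : Cn (m + 2) => (2 * kap t / (1 + t * z 0) : ℂ) * z 1) z
    exact (dv h3 hu hu0).fun_mul (coord_differentiable _).differentiableAt
  · show DifferentiableAt ℂ (fun z : Cn (m + 2) => (2 * kap t / (1 + t * z 0) : ℂ) * z i.succ.succ) z
    exact (dv h3 hu hu0).fun_mul (coord_differentiable _).differentiableAt

theorem isOpen_E : IsOpen (E m) := by
  have : Continuous (g : Cn (m + 2) → ℝ) := by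
    unfold g R
    fun_prop
  exact isOpen_lt this continuous_const

/-- the point `Φ_a (t e_0)` -/
noncomputable def pt (a t : ℝ) : Cn (m + 2) := Phi a (mk t 0 0)

theorem base_mem {t : ℝ} (ht0 : 0 ≤ t) (ht : t < 1) : (mk t 0 0 : Cn (m + 2)) ∈ E m := by
  show g _ < 1
  unfold g R
  simp only [mk_zero, mk_one, mk_succ, Complex.norm_real, Real.norm_eq_abs, sq_abs, norm_zero,
    Pi.zero_apply]
  have : (t ^ 2) ^ 2 < 1 := by
    have h1 : t ^ 2 < 1 := by nlinarith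
    exact (sq_lt_one_iff₀ (sq_nonneg t)).2 h1
  simpa using this

theorem embed {a t : ℝ} (ha : |a| < 1) (ht0 : 0 ≤ t) (ht : t < 1) :
    ∃ F : Cn (m + 2) → Cn (m + 2), DifferentiableOn ℂ F (E m) ∧ InjOn F (E m) ∧
      (∀ x ∈ E m, Function.Injective (fderiv ℂ F x)) ∧ MapsTo F (E m) (ball 0 1) ∧
      F (pt a t) = 0 ∧ ∀ y : Cn (m + 2), ‖y‖ ^ 2 < 2 * t ^ 2 - 1 → y ∈ F '' (E m) := by
  have ha' : |-a| < 1 := by rwa [abs_neg]
  set F : Cn (m + 2) → Cn (m + 2) := M t ∘ Phi (-a) with hF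
  set G : Cn (m + 2) → Cn (m + 2) := Phi a ∘ N t with hG
  have hPP : ∀ x ∈ E m, Phi a (Phi (-a) x) = x := by
    intro x hx
    have := Phi_inv ha' hx
    rwa [neg_neg] at this
  have hGF : ∀ x ∈ E m, G (F x) = x := by
    intro x hx
    simp only [hG, hF, Function.comp]
    rw [N_M ht0 ht (zero_lt_one_of_mem (Phi_mem ha' hx)), hPP x hx]
  have hFd : ∀ x ∈ E m, DifferentiableAt ℂ F x := by
    intro x hx
    exact (M_differentiableAt ht0 ht (zero_lt_one_of_mem (Phi_mem ha' hx))).comp x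
      (Phi_differentiableAt ha' hx)
  have hmaps : MapsTo F (E m) (ball 0 1) := by
    intro x hx
    rw [mem_ball_zero_iff]
    exact M_mem ht0 ht (Phi_mem ha' hx)
  refine ⟨F, fun x hx => (hFd x hx).differentiableWithinAt, ?_, ?_, hmaps, ?_, ?_⟩
  · intro x hx y hy hxy
    rw [← hGF x hx, ← hGF y hy, hxy]
  · intro x hx
    have hball : ‖F x‖ < 1 := by simpa using hmaps hx
    have h0 : ‖(F x) 0‖ < 1 := lt_of_le_of_lt (PiLp.norm_apply_le _ _) hball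
    have hGd : DifferentiableAt ℂ G (F x) := by
      have h1 := N_differentiableAt ht0 ht h0
      have h2 : N t (F x) = Phi (-a) x := by
        simp only [hF, Function.comp]
        exact N_M ht0 ht (zero_lt_one_of_mem (Phi_mem ha' hx))
      have h3 : DifferentiableAt ℂ (Phi a) (N t (F x)) := by
        rw [h2]; exact Phi_differentiableAt ha (Phi_mem ha' hx)
      exact h3.comp _ h1
    have hcomp : fderiv ℂ (G ∘ F) x = ContinuousLinearMap.id ℂ _ := by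
      have : G ∘ F =ᶠ[𝓝 x] id := by
        filter_upwards [isOpen_E.mem_nhds hx] with y hy
        exact hGF y hy
      rw [this.fderiv_eq, fderiv_id]
    rw [fderiv_comp x hGd (hFd x hx)] at hcomp
    intro v w hvw
    have h4 : ∀ u, (fderiv ℂ G (F x)) ((fderiv ℂ F x) u) = u := by
      intro u
      have := congrArg (fun T => T u) hcomp
      simpa using this
    rw [← h4 v, ← h4 w, hvw]
  · simp only [hF, Function.comp, pt]
    have := Phi_inv ha (base_mem (m := m) ht0 ht)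
    rw [this]
    unfold M
    apply ext_mk
    · simp
    · simp
    · intro i; simp
  · intro y hy
    have hy0 : ‖y 0‖ < 1 := by
      have h1 : ‖y‖ ^ 2 < 1 := by nlinarith
      have h2 := (sq_lt_one_iff₀ (norm_nonneg _)).1 h1
      exact lt_of_le_of_lt (PiLp.norm_apply_le _ _) h2
    have h1 := N_mem ht0 ht hy
    refine ⟨Phi a (N t y), Phi_mem ha h1, ?_⟩
    simp only [hF, Function.comp]
    rw [Phi_inv ha h1, M_N ht0 ht hy0]

end Pool.Agent.Sx28.Egg
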