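import Mathlib
import Pool.Agent.Sx28.Egg.Squeeze

set_option autoImplicit false
open Metric Filter Topology Set

namespace Pool.Agent.Sx28.Egg

variable {m : ℕ}

/-- coordinate as a real linear map -/
noncomputable def P (i : Fin (m + 2)) : Cn (m + 2) →L[ℝ] ℂ :=
  (EuclideanSpace.proj i : Cn (m + 2) →L[ℂ] ℂ).restrictScalars ℝ

@[simp] theorem P_apply (i : Fin (m + 2)) (z : Cn (m + 2)) : P i z = z i := rfl

/-- defining function -/
noncomputable def rho (z : Cn (m + 2)) : ℝ := g z - 1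

/-- its differential -/
noncomputable def dg (z : Cn (m + 2)) : Cn (m + 2) →L[ℝ] ℝ :=
  2 • (innerSL ℝ (z 1)).comp (P 1) +
    ∑ i : Fin m, 2 • (innerSL ℝ (z i.succ.succ)).comp (P i.succ.succ) +
    (2 * ‖z 0‖ ^ 2) • (2 • (innerSL ℝ (z 0)).comp (P 0))

theorem hasFDerivAt_rho (z : Cn (m + 2)) : HasFDerivAt rho (dg z) z := by
  have h : ∀ i : Fin (m + 2), HasFDerivAt (fun z : Cn (m + 2) => ‖z i‖ ^ 2)
      (2 • (innerSL ℝ (z i)).comp (P i)) z := fun i => ((P i).hasFDerivAt (x := z)).norm_sq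
  have h0 : HasFDerivAt (fun z : Cn (m + 2) => (‖z 0‖ ^ 2) ^ 2)
      ((2 * ‖z 0‖ ^ 2) • (2 • (innerSL ℝ (z 0)).comp (P 0))) z := by
    have := (h 0).pow 2
    refine this.congr_fderiv ?_
    simp
  have hs : HasFDerivAt (fun z : Cn (m + 2) => ∑ i : Fin m, ‖z i.succ.succ‖ ^ 2)
      (∑ i : Fin m, 2 • (innerSL ℝ (z i.succ.succ)).comp (P i.succ.succ)) z :=
    HasFDerivAt.fun_sum (fun i _ => h i.succ.succ)
  exact (((h 1).add hs).add h0).sub_const 1

/-- real inner product in `ℂ` summed over the regular coordinates -/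
noncomputable def ip (z w : Cn (m + 2)) : ℝ :=
  inner ℝ (z 1) (w 1) + ∑ i : Fin m, inner ℝ (z i.succ.succ) (w i.succ.succ)

theorem dg_apply (z w : Cn (m + 2)) :
    dg z w = 2 * ip z w + 4 * (‖z 0‖ ^ 2 * inner ℝ (z 0) (w 0)) := by
  unfold dg ip
  simp only [_root_.add_apply, _root_.sum_apply, _root_.smul_apply, ContinuousLinearMap.comp_apply, innerSL_apply_apply, P_apply,
    smul_eq_mul, nsmul_eq_mul]
  rw [← Finset.mul_sum]
  push_cast
  ring

theorem ip_self (w : Cn (m + 2)) : ip w w = ‖w 1‖ ^ 2 + R w := by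
  unfold ip R
  simp only [real_inner_self_eq_norm_sq]

theorem fderiv_rho (z : Cn (m + 2)) : fderiv ℝ rho z = dg z := (hasFDerivAt_rho z).fderiv

theorem rho_contDiff : ContDiff ℝ (⊤ : ℕ∞) (rho : Cn (m + 2) → ℝ) := by
  have h : ∀ i : Fin (m + 2), ContDiff ℝ (⊤ : ℕ∞) (fun z : Cn (m + 2) => ‖z i‖ ^ 2) :=
    fun i => (contDiff_norm_sq ℝ).comp (P i).contDiff
  unfold rho g R
  exact ((h 1).add (ContDiff.sum (fun i _ => h i.succ.succ))).add ((h 0).pow 2) |>.sub contDiff_const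

theorem ip_add_smul (q v w : Cn (m + 2)) (t : ℝ) : ip (q + t • v) w = ip q w + t * ip v w := by
  unfold ip
  have h : ∀ i, inner ℝ ((q + t • v) i) (w i) = inner ℝ (q i) (w i) + t * inner ℝ (v i) (w i) := by
    intro i
    rw [PiLp.add_apply, PiLp.smul_apply, inner_add_left, real_inner_smul_left]
  simp only [h]
  rw [Finset.sum_add_distrib, ← Finset.mul_sum]
  ring

/-- the Hessian -/
theorem hess (q v w : Cn (m + 2)) : iteratedFDeriv ℝ 2 rho q ![v, w] =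
    2 * ip v w + 4 * (2 * inner ℝ (q 0) (v 0) * inner ℝ (q 0) (w 0) +
      ‖q 0‖ ^ 2 * inner ℝ (v 0) (w 0)) := by
  rw [iteratedFDeriv_two_apply]
  simp only [Matrix.cons_val_zero, Matrix.cons_val_one]
  have hd : Differentiable ℝ (fderiv ℝ (rho : Cn (m + 2) → ℝ)) :=
    (rho_contDiff.fderiv_right (m := 1) (by norm_cast)).differentiable (by norm_num)
  have h1 : fderiv ℝ (fun z => (fderiv ℝ (rho : Cn (m + 2) → ℝ) z) w) q v =
      (fderiv ℝ (fderiv ℝ rho) q v) w := by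
    rw [fderiv_clm_apply (hd q) (differentiableAt_const w)]
    simp
  rw [← h1]
  have h2 : DifferentiableAt ℝ (fun z => (fderiv ℝ (rho : Cn (m + 2) → ℝ) z) w) q :=
    (hd q).clm_apply (differentiableAt_const w)
  have h3 : HasDerivAt (fun t : ℝ => (fderiv ℝ (rho : Cn (m + 2) → ℝ) (q + t • v)) w)
      (fderiv ℝ (fun z => (fderiv ℝ (rho : Cn (m + 2) → ℝ) z) w) q v) 0 := by
    have := h2.hasFDerivAt.hasLineDerivAt v
    exact this
  refine h3.unique ?_
  have h4 : (fun t : ℝ => (fderiv ℝ (rho : Cn (m + 2) → ℝ) (q + t • v)) w) = fun t : ℝ =>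
      2 * (ip q w + t * ip v w) + 4 * ((‖q 0‖ ^ 2 + 2 * (t * inner ℝ (q 0) (v 0)) +
        t ^ 2 * ‖v 0‖ ^ 2) * (inner ℝ (q 0) (w 0) + t * inner ℝ (v 0) (w 0))) := by
    funext t
    rw [fderiv_rho, dg_apply, ip_add_smul]
    congr 3
    · rw [PiLp.add_apply, PiLp.smul_apply, norm_add_sq_real, real_inner_smul_right, norm_smul,
        mul_pow, Real.norm_eq_abs, sq_abs]
    · rw [PiLp.add_apply, PiLp.smul_apply, inner_add_left, real_inner_smul_left]
  rw [h4]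
  have ht : HasDerivAt (fun t : ℝ => t) 1 (0 : ℝ) := hasDerivAt_id 0
  have k1 : HasDerivAt (fun t : ℝ => 2 * (ip q w + t * ip v w)) (2 * (1 * ip v w)) 0 :=
    ((ht.mul_const _).const_add _).const_mul _
  have k2 : HasDerivAt (fun t : ℝ => ‖q 0‖ ^ 2 + 2 * (t * inner ℝ (q 0) (v 0)) +
        t ^ 2 * ‖v 0‖ ^ 2) (2 * (1 * inner ℝ (q 0) (v 0)) + ((2 : ℕ) * (0 : ℝ) ^ (2 - 1) * 1) *
          ‖v 0‖ ^ 2) 0 :=
    (((ht.mul_const _).const_mul 2).const_add _).add ((ht.pow 2).mul_const _)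
  have k3 : HasDerivAt (fun t : ℝ => (inner ℝ (q 0) (w 0) + t * inner ℝ (v 0) (w 0)))
      (1 * inner ℝ (v 0) (w 0)) (0 : ℝ) := (ht.mul_const _).const_add _
  refine (k1.add ((k2.mul k3).const_mul 4)).congr_deriv ?_
  simp

/-! ### convexity -/

theorem sqc {a b s t : ℝ} (ha : 0 ≤ a) (hb : 0 ≤ b) (hab : a + b = 1) :
    (a * s + b * t) ^ 2 ≤ a * s ^ 2 + b * t ^ 2 := by
  have : a * s ^ 2 + b * t ^ 2 - (a * s + b * t) ^ 2 = a * b * (s - t) ^ 2 := by
    have hb' : b = 1 - a := by linarith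
    subst hb'; ring
  have h2 : 0 ≤ a * b * (s - t) ^ 2 := by positivity
  linarith

theorem sqn {a b : ℝ} (ha : 0 ≤ a) (hb : 0 ≤ b) (hab : a + b = 1) (u v : ℂ) :
    ‖a • u + b • v‖ ^ 2 ≤ a * ‖u‖ ^ 2 + b * ‖v‖ ^ 2 := by
  have h1 : ‖a • u + b • v‖ ≤ a * ‖u‖ + b * ‖v‖ := by
    refine (norm_add_le _ _).trans (le_of_eq ?_)
    rw [norm_smul, norm_smul, Real.norm_eq_abs, Real.norm_eq_abs, abs_of_nonneg ha,
      abs_of_nonneg hb]
  calc ‖a • u + b • v‖ ^ 2 ≤ (a * ‖u‖ + b * ‖v‖) ^ 2 := by gcongr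
    _ ≤ _ := sqc ha hb hab

theorem convex_E : Convex ℝ (E m) := by
  intro x hx y hy a b ha hb hab
  show g (a • x + b • y) < 1
  have hx' : g x < 1 := hx
  have hy' : g y < 1 := hy
  have hc : ∀ i, ‖(a • x + b • y) i‖ ^ 2 ≤ a * ‖x i‖ ^ 2 + b * ‖y i‖ ^ 2 := fun i => by
    rw [PiLp.add_apply, PiLp.smul_apply, PiLp.smul_apply]
    exact sqn ha hb hab _ _
  have h0 : (‖(a • x + b • y) 0‖ ^ 2) ^ 2 ≤ a * (‖x 0‖ ^ 2) ^ 2 + b * (‖y 0‖ ^ 2) ^ 2 := by
    calc (‖(a • x + b • y) 0‖ ^ 2) ^ 2 ≤ (a * ‖x 0‖ ^ 2 + b * ‖y 0‖ ^ 2) ^ 2 := by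
          have := hc 0
          gcongr
      _ ≤ _ := sqc ha hb hab
  have hR : R (a • x + b • y) ≤ a * R x + b * R y := by
    unfold R
    rw [Finset.mul_sum, Finset.mul_sum, ← Finset.sum_add_distrib]
    exact Finset.sum_le_sum (fun i _ => hc _)
  have hg : g (a • x + b • y) ≤ a * g x + b * g y := by
    unfold g
    have := hc 1
    linarith
  refine lt_of_le_of_lt hg ?_
  rcases ha.eq_or_lt with rfl | ha'
  · have : b = 1 := by linarith
    subst this; simpa using hy'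
  · have h1 : a * g x < a * 1 := mul_lt_mul_of_pos_left hx' ha'
    have h2 : b * g y ≤ b * 1 := mul_le_mul_of_nonneg_left hy'.le hb
    linarith

theorem bounded_E : Bornology.IsBounded (E m) := by
  apply (Metric.isBounded_ball (x := (0 : Cn (m + 2))) (r := 2)).subset
  intro z hz
  rw [mem_ball_zero_iff]
  apply lt_of_pow_lt_pow_left₀ 2 zero_le_two
  have h0 := zero_lt_one_of_mem hz
  have h1 : g z < 1 := hz
  unfold g at h1
  rw [norm_sq_eq]
  have h2 : ‖z 0‖ ^ 2 < 1 := pow_lt_one₀ (norm_nonneg _) h0 two_ne_zero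
  nlinarith [sq_nonneg (‖z 0‖ ^ 2)]

/-- the point `p = e_1` -/
noncomputable def pp : Cn (m + 2) := mk 0 1 0

theorem g_pp : g (pp : Cn (m + 2)) = 1 := by
  unfold g R pp; simp

theorem zero_mem : (0 : Cn (m + 2)) ∈ E m := by
  show g _ < 1
  unfold g R; simp

theorem g_continuous : Continuous (g : Cn (m + 2) → ℝ) := by
  unfold g R
  fun_prop

theorem frontier_sub {q : Cn (m + 2)} (hq : q ∈ frontier (E m)) : g q = 1 :=
  frontier_lt_subset_eq g_continuous continuous_const hq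

theorem ne_zero_of_frontier {q : Cn (m + 2)} (hq : q ∈ frontier (E m)) : q ≠ 0 := by
  rintro rfl
  have h1 := frontier_sub hq
  have h2 : g (0 : Cn (m + 2)) < 1 := zero_mem
  linarith

end Pool.Agent.Sx28.Egg
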