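import Mathlib
import Pool.Agent.Sx28.Egg.Levi

set_option autoImplicit false
open Metric Filter Topology Set Asymptotics

namespace Pool.Agent.Sx28.Egg

variable {m : ℕ}

/-- On each small circle there is a point where a holomorphic function vanishing at `0` has
nonnegative real part. -/
theorem exists_re_nonneg {h : ℂ → ℂ} {ε : ℝ} (hd : DifferentiableOn ℂ h (ball 0 ε)) (h0 : h 0 = 0)
    {s : ℝ} (hs : 0 < s) (hsε : s < ε) : ∃ ζ : ℂ, ‖ζ‖ = s ∧ 0 ≤ (h ζ).re := by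
  by_contra hcon
  push Not at hcon
  have hsub : closedBall (0 : ℂ) s ⊆ ball 0 ε := closedBall_subset_ball hsε
  have hcont : ContinuousOn (fun ζ => (h ζ).re) (sphere (0 : ℂ) s) :=
    Complex.continuous_re.comp_continuousOn
      (hd.continuousOn.mono (sphere_subset_closedBall.trans hsub))
  have hne : (sphere (0 : ℂ) s).Nonempty := (NormedSpace.sphere_nonempty).2 hs.le
  obtain ⟨ζ0, hζ0, hmax⟩ := (isCompact_sphere (0 : ℂ) s).exists_isMaxOn hne hcont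
  have hneg : (h ζ0).re < 0 := hcon ζ0 (by simpa using hζ0)
  have hdc : DiffContOnCl ℂ (fun ζ => Complex.exp (h ζ)) (ball 0 s) := by
    apply DifferentiableOn.diffContOnCl
    rw [closure_ball _ hs.ne']
    exact (hd.mono hsub).cexp
  have hle := Complex.norm_le_of_forall_mem_frontier_norm_le (isBounded_ball (x := (0 : ℂ)) (r := s))
    hdc (C := Real.exp ((h ζ0).re)) (by
      intro z hz
      rw [frontier_ball _ hs.ne'] at hz
      rw [Complex.norm_exp]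
      exact Real.exp_le_exp.2 (hmax hz)) (z := 0) (subset_closure (mem_ball_self hs))
  rw [h0, Complex.exp_zero, norm_one] at hle
  have : Real.exp ((h ζ0).re) < 1 := by
    rw [← Real.exp_zero]; exact Real.exp_lt_exp.2 hneg
  linarith

/-- the nonnegative part of `ρ` along a curve -/
noncomputable def W (q z : Cn (m + 2)) : ℝ :=
  ‖z 1 - q 1‖ ^ 2 + R (z - q) + ‖z 0 ^ 2 - q 0 ^ 2‖ ^ 2

/-- the holomorphic part -/
noncomputable def hol (q z : Cn (m + 2)) : ℂ :=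
  (starRingEnd ℂ (q 1)) * (z 1 - q 1) +
    ∑ i : Fin m, (starRingEnd ℂ (q i.succ.succ)) * (z i.succ.succ - q i.succ.succ) +
    (starRingEnd ℂ (q 0 ^ 2)) * (z 0 ^ 2 - q 0 ^ 2)

theorem sqdiff (a b : ℂ) : ‖a‖ ^ 2 = ‖b‖ ^ 2 + 2 * ((starRingEnd ℂ b) * (a - b)).re + ‖a - b‖ ^ 2 := by
  rw [Complex.sq_norm, Complex.sq_norm, Complex.sq_norm, Complex.normSq_apply,
    Complex.normSq_apply, Complex.normSq_apply]
  simp
  ring

theorem g_split (q z : Cn (m + 2)) : g z = g q + 2 * (hol q z).re + W q z := by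
  unfold g hol W R
  have e0 : (‖z 0‖ ^ 2) ^ 2 = ‖z 0 ^ 2‖ ^ 2 := by rw [norm_pow]
  have e0' : (‖q 0‖ ^ 2) ^ 2 = ‖q 0 ^ 2‖ ^ 2 := by rw [norm_pow]
  rw [e0, e0', sqdiff (z 1) (q 1), sqdiff (z 0 ^ 2) (q 0 ^ 2)]
  have e1 : ∀ i : Fin m, ‖z i.succ.succ‖ ^ 2 = ‖q i.succ.succ‖ ^ 2 +
      2 * ((starRingEnd ℂ (q i.succ.succ)) * (z i.succ.succ - q i.succ.succ)).re +
      ‖(z - q) i.succ.succ‖ ^ 2 := fun i => by rw [PiLp.sub_apply]; exact sqdiff _ _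
  simp only [e1]
  rw [Finset.sum_add_distrib, Finset.sum_add_distrib, ← Finset.mul_sum]
  rw [Complex.add_re, Complex.add_re, Complex.re_sum]
  ring

theorem R_smul (c : ℂ) (z : Cn (m + 2)) : R (c • z) = ‖c‖ ^ 2 * R z := by
  unfold R
  rw [Finset.mul_sum]
  refine Finset.sum_congr rfl (fun i _ => ?_)
  rw [PiLp.smul_apply, norm_smul, mul_pow]

theorem R_continuous : Continuous (R : Cn (m + 2) → ℝ) := by
  unfold R
  fun_prop

theorem W_lower (q : Cn (m + 2)) {γ : ℂ → Cn (m + 2)} {M' : ℕ} (hγ : AnalyticAt ℂ γ 0)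
    (hγ0 : γ 0 = q) (hord : analyticOrderAt (fun ζ => γ ζ - q) 0 = M') :
    ∃ c : ℝ, 0 < c ∧ ∀ᶠ ζ in 𝓝 (0 : ℂ), c * ‖ζ‖ ^ (4 * M') ≤ W q (γ ζ) := by
  have han : AnalyticAt ℂ (fun ζ => γ ζ - q) 0 := hγ.sub analyticAt_const
  obtain ⟨G, hG, hG0, hev⟩ := (han.analyticOrderAt_eq_natCast).1 hord
  have hsmall : ∀ᶠ ζ in 𝓝 (0 : ℂ), ‖ζ‖ < 1 := by
    have := (continuous_norm (E := ℂ)).tendsto 0
    rw [norm_zero] at this
    exact this.eventually (gt_mem_nhds one_pos)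
  have hpow : ∀ ζ : ℂ, ‖ζ‖ < 1 → ‖ζ‖ ^ (4 * M') ≤ ‖ζ‖ ^ (2 * M') := fun ζ hζ =>
    pow_le_pow_of_le_one (norm_nonneg _) hζ.le (by omega)
  have hGc := hG.continuousAt
  by_cases hA : 0 < ‖(G 0) 1‖ ^ 2 + R (G 0)
  · set δ : ℝ := ‖(G 0) 1‖ ^ 2 + R (G 0) with hδ
    have hcont : ContinuousAt (fun ζ => ‖(G ζ) 1‖ ^ 2 + R (G ζ)) 0 := by
      have hc : Continuous (fun z : Cn (m + 2) => ‖z 1‖ ^ 2 + R z) := by
        have := R_continuous (m := m)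
        fun_prop
      exact hc.continuousAt.comp (x := (0 : ℂ)) hGc
    have hge : ∀ᶠ ζ in 𝓝 (0 : ℂ), δ / 2 < ‖(G ζ) 1‖ ^ 2 + R (G ζ) := by
      have h2 : δ / 2 < ‖(G 0) 1‖ ^ 2 + R (G 0) := by rw [← hδ]; linarith
      exact hcont.eventually (lt_mem_nhds h2)
    refine ⟨δ / 2, by positivity, ?_⟩
    filter_upwards [hsmall, hge, hev] with ζ h1 h2 h3
    rw [sub_zero] at h3
    have e1 : ‖(γ ζ) 1 - q 1‖ ^ 2 = ‖ζ‖ ^ (2 * M') * ‖(G ζ) 1‖ ^ 2 := by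
      have : (γ ζ) 1 - q 1 = (γ ζ - q) 1 := rfl
      rw [this, h3, PiLp.smul_apply, norm_smul, norm_pow, mul_pow, ← pow_mul, mul_comm M' 2]
    have e2 : R (γ ζ - q) = ‖ζ‖ ^ (2 * M') * R (G ζ) := by
      rw [h3, R_smul, norm_pow, ← pow_mul, mul_comm M' 2]
    unfold W
    rw [e1, e2]
    calc δ / 2 * ‖ζ‖ ^ (4 * M') ≤ δ / 2 * ‖ζ‖ ^ (2 * M') := by
          have := hpow ζ h1
          gcongr
      _ ≤ (‖(G ζ) 1‖ ^ 2 + R (G ζ)) * ‖ζ‖ ^ (2 * M') := by gcongr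
      _ ≤ _ := by nlinarith [sq_nonneg ‖(γ ζ) 0 ^ 2 - q 0 ^ 2‖]
  · have hR := R_nonneg (G 0)
    have h10 : ‖(G 0) 1‖ ^ 2 + R (G 0) = 0 :=
      le_antisymm (not_lt.1 hA) (by positivity)
    have h00 : (G 0) 0 ≠ 0 := by
      intro h
      apply hG0
      have : ‖G 0‖ ^ 2 = 0 := by rw [norm_sq_eq, h10, h]; simp
      simpa using this
    set d : ℝ := ‖(G 0) 0‖ with hd
    have hdpos : 0 < d := norm_pos_iff.2 h00
    have hcont : ContinuousAt (fun ζ => ‖(G ζ) 0‖) 0 := by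
      have hc : Continuous (fun z : Cn (m + 2) => ‖z 0‖) := by fun_prop
      exact hc.continuousAt.comp (x := (0 : ℂ)) hGc
    have hge : ∀ᶠ ζ in 𝓝 (0 : ℂ), d / 2 < ‖(G ζ) 0‖ := by
      have h2 : d / 2 < ‖(G 0) 0‖ := by rw [← hd]; linarith
      exact hcont.eventually (lt_mem_nhds h2)
    have hfac : ∀ ζ, (γ ζ) 0 ^ 2 - q 0 ^ 2 = ((γ ζ) 0 - q 0) * ((γ ζ) 0 - q 0 + 2 * q 0) := by
      intro ζ; ring
    have hlow : ∀ᶠ ζ in 𝓝 (0 : ℂ), ‖ζ‖ ^ M' * (d / 2) ≤ ‖(γ ζ) 0 - q 0‖ := by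
      filter_upwards [hge, hev] with ζ h2 h3
      rw [sub_zero] at h3
      have : (γ ζ) 0 - q 0 = (γ ζ - q) 0 := rfl
      rw [this, h3, PiLp.smul_apply, norm_smul, norm_pow]
      gcongr
    by_cases hq : q 0 = 0
    · refine ⟨(d / 2) ^ 4, by positivity, ?_⟩
      filter_upwards [hlow] with ζ h3
      unfold W
      have hR := R_nonneg (γ ζ - q)
      have e1 : ‖(γ ζ) 0 ^ 2 - q 0 ^ 2‖ ^ 2 = ‖(γ ζ) 0 - q 0‖ ^ 4 := by
        rw [hfac, hq, mul_zero, add_zero, sub_zero, norm_mul]; ring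
      rw [e1]
      calc (d / 2) ^ 4 * ‖ζ‖ ^ (4 * M') = (‖ζ‖ ^ M' * (d / 2)) ^ 4 := by
            rw [mul_pow, ← pow_mul, mul_comm M' 4]; ring
        _ ≤ ‖(γ ζ) 0 - q 0‖ ^ 4 := by gcongr
        _ ≤ _ := by nlinarith [sq_nonneg ‖(γ ζ) 1 - q 1‖]
    · have hq' : 0 < ‖q 0‖ := norm_pos_iff.2 hq
      have hcont2 : ContinuousAt (fun ζ => ‖(γ ζ) 0 - q 0 + 2 * q 0‖) 0 := by
        have hc : Continuous (fun z : Cn (m + 2) => ‖z 0 - q 0 + 2 * q 0‖) := by fun_prop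
        exact hc.continuousAt.comp (x := (0 : ℂ)) hγ.continuousAt
      have hge2 : ∀ᶠ ζ in 𝓝 (0 : ℂ), ‖q 0‖ < ‖(γ ζ) 0 - q 0 + 2 * q 0‖ := by
        have h2 : ‖q 0‖ < ‖(γ 0) 0 - q 0 + 2 * q 0‖ := by
          rw [hγ0, sub_self, zero_add, norm_mul, Complex.norm_two]; linarith
        exact hcont2.eventually (lt_mem_nhds h2)
      refine ⟨(d / 2) ^ 2 * ‖q 0‖ ^ 2, by positivity, ?_⟩
      filter_upwards [hlow, hge2, hsmall] with ζ h3 h4 h1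
      unfold W
      have hR := R_nonneg (γ ζ - q)
      rw [hfac, norm_mul, mul_pow]
      calc (d / 2) ^ 2 * ‖q 0‖ ^ 2 * ‖ζ‖ ^ (4 * M') ≤ (d / 2) ^ 2 * ‖q 0‖ ^ 2 * ‖ζ‖ ^ (2 * M') := by
            have := hpow ζ h1
            gcongr
        _ = (‖ζ‖ ^ M' * (d / 2)) ^ 2 * ‖q 0‖ ^ 2 := by
            rw [mul_pow, ← pow_mul, mul_comm M' 2]; ring
        _ ≤ ‖(γ ζ) 0 - q 0‖ ^ 2 * ‖(γ ζ) 0 - q 0 + 2 * q 0‖ ^ 2 := by gcongr
        _ ≤ _ := by nlinarith [sq_nonneg ‖(γ ζ) 1 - q 1‖]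

theorem ftype {q : Cn (m + 2)} (hq : g q = 1) {γ : ℂ → Cn (m + 2)} (hγ : AnalyticAt ℂ γ 0)
    (hγ0 : γ 0 = q) {M' : ℕ} (hord : analyticOrderAt (fun ζ => γ ζ - q) 0 = M') {k : ℕ}
    (hk : (fun ζ => rho (γ ζ)) =O[𝓝 0] (fun ζ : ℂ => ‖ζ‖ ^ k)) : k ≤ 4 * M' := by
  by_contra hlt
  push Not at hlt
  obtain ⟨c, hc, hW⟩ := W_lower q hγ hγ0 hord
  obtain ⟨C, hC⟩ := hk.bound
  have hcoord : ∀ i, AnalyticAt ℂ (fun ζ => (γ ζ) i) 0 := fun i =>
    ((EuclideanSpace.proj i : Cn (m + 2) →L[ℂ] ℂ).analyticAt _).comp hγ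
  have hh : AnalyticAt ℂ (fun ζ => hol q (γ ζ)) 0 := by
    unfold hol
    refine (((analyticAt_const.mul ((hcoord 1).sub analyticAt_const))).add ?_).add
      (analyticAt_const.mul (((hcoord 0).pow 2).sub analyticAt_const))
    have : ∀ i ∈ (Finset.univ : Finset (Fin m)), AnalyticAt ℂ (fun ζ =>
        (starRingEnd ℂ (q i.succ.succ)) * ((γ ζ) i.succ.succ - q i.succ.succ)) 0 := fun i _ =>
      analyticAt_const.mul ((hcoord _).sub analyticAt_const)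
    exact Finset.analyticAt_fun_sum _ this
  have hh0 : hol q (γ 0) = 0 := by
    rw [hγ0]; unfold hol; simp
  obtain ⟨ε1, hε1, hd⟩ : ∃ ε > 0, DifferentiableOn ℂ (fun ζ => hol q (γ ζ)) (ball 0 ε) := by
    obtain ⟨ε, hε, hb⟩ := Metric.eventually_nhds_iff_ball.1 hh.eventually_analyticAt
    exact ⟨ε, hε, fun x hx => (hb x hx).differentiableAt.differentiableWithinAt⟩
  obtain ⟨ε2, hε2, hb2⟩ := Metric.eventually_nhds_iff_ball.1 (hW.and hC)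
  -- for all small `s`
  have key : ∀ s : ℝ, 0 < s → s < ε1 → s < ε2 → s ≤ 1 → c ≤ |C| * s := by
    intro s hs h1 h2 h3
    obtain ⟨ζ, hζ, hre⟩ := exists_re_nonneg hd hh0 hs h1
    have hζ2 : ζ ∈ ball (0 : ℂ) ε2 := by rw [mem_ball_zero_iff, hζ]; exact h2
    obtain ⟨hw, hCζ⟩ := hb2 ζ hζ2
    have h4 : rho (γ ζ) ≤ |C| * s ^ k := by
      have h5 : rho (γ ζ) ≤ ‖rho (γ ζ)‖ := le_abs_self _
      rw [norm_pow, norm_norm, hζ] at hCζ
      calc rho (γ ζ) ≤ C * s ^ k := h5.trans hCζ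
        _ ≤ |C| * s ^ k := by
          have := le_abs_self C
          gcongr
    have h6 : c * s ^ (4 * M') ≤ rho (γ ζ) := by
      unfold rho
      rw [g_split q (γ ζ), hq]
      rw [hζ] at hw
      linarith
    have h7 : s ^ k ≤ s ^ (4 * M' + 1) := pow_le_pow_of_le_one hs.le h3 hlt
    have h8 : c * s ^ (4 * M') ≤ |C| * s * s ^ (4 * M') := by
      calc c * s ^ (4 * M') ≤ |C| * s ^ k := h6.trans h4
        _ ≤ |C| * s ^ (4 * M' + 1) := by gcongr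
        _ = _ := by ring
    exact le_of_mul_le_mul_right h8 (by positivity)
  set s : ℝ := min (min (ε1 / 2) (ε2 / 2)) (min 1 (c / (2 * (|C| + 1)))) with hs
  have hspos : 0 < s := by positivity
  have a1 : s < ε1 := lt_of_le_of_lt ((min_le_left _ _).trans (min_le_left _ _)) (by linarith)
  have a2 : s < ε2 := lt_of_le_of_lt ((min_le_left _ _).trans (min_le_right _ _)) (by linarith)
  have a3 : s ≤ 1 := (min_le_right _ _).trans (min_le_left _ _)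
  have a4 : s ≤ c / (2 * (|C| + 1)) := (min_le_right _ _).trans (min_le_right _ _)
  have a5 := key s hspos a1 a2 a3
  have a6 : (|C| + 1) * s ≤ c / 2 := by
    rw [le_div_iff₀ (by positivity)] at a4
    linarith
  have : |C| * s ≤ (|C| + 1) * s := by nlinarith
  linarith

end Pool.Agent.Sx28.Egg
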